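import Pool.Agent.W921.SF.Final

/-!
# Solovay families whose functions change value boundedly often

The definitions are in `Pool.Agent.W921.SF.Defs` (Part 1), the language, `PA` and the standard model
are in `Pool.Agent.Helper227.EN.Lang`, the Turing jump and c.e. operators are in
`Pool.Agent.Helper578.JD.Defs`.
-/

set_option autoImplicit false

open FirstOrder FirstOrder.Language Pool.Agent.Helper227.EN

namespace Pool.Agent.Results.MP_1378ec_lc.NoBoundedSolovay

open Pool.Agent.W921.SF

/-- For every Gödel numbering `gn` of the sentences and every countable list `h 0, h 1, …` of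
bounds there is a nonstandard model `A` of Peano arithmetic with universe `ℕ` such that, for every
Solovay family `t 1, t 2, …` for the theory of `A` relative to `A` and every `i`, some function `t n`
with `n ≥ 1` changes value more than `h i n` times. -/
theorem result (gn : LA.Sentence → ℕ) (hgn : Function.Injective gn) (h : ℕ → ℕ → ℕ) :
    ∃ A : LA.Structure ℕ,
      @FirstOrder.Language.Theory.Model LA ℕ A PA ∧
      ¬ Nonempty (@FirstOrder.Language.Equiv LA ℕ ℕ A stdStr) ∧
      ∀ t : ℕ → ℕ → ℕ, IsSolovay gn A t → ∀ i, ∃ n ≥ 1, ¬ Chg (t n) (h i n) :=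
  Final.main gn hgn h

/-- The question of the problem: there is a nonstandard model `A` of Peano arithmetic such that no
Solovay family for the theory of `A` relative to `A` has every function changing value at most
once. -/
theorem question (gn : LA.Sentence → ℕ) (hgn : Function.Injective gn) :
    ∃ A : LA.Structure ℕ,
      @FirstOrder.Language.Theory.Model LA ℕ A PA ∧
      ¬ Nonempty (@FirstOrder.Language.Equiv LA ℕ ℕ A stdStr) ∧
      ¬ ∃ t : ℕ → ℕ → ℕ, IsSolovay gn A t ∧ ∀ n ≥ 1, Chg (t n) 1 := by
  obtain ⟨A, h1, h2, h3⟩ := result gn hgn fun _ _ => 1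
  refine ⟨A, h1, h2, ?_⟩
  rintro ⟨t, h4, h5⟩
  obtain ⟨n, hn, h6⟩ := h3 t h4 0
  exact h6 (h5 n hn)

end Pool.Agent.Results.MP_1378ec_lc.NoBoundedSolovay
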